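import Pool.Agent.Lib.MP_524519_ag.DU5.TR.Iface

/-! # DU5, chapter TR, module POLE (helper84) -/

set_option autoImplicit false
set_option linter.unusedSectionVars false

namespace Pool.Agent.DU5.TR.H84

open MvPowerSeries

/-- A power of every coordinate lies in an ideal of finite colength. -/
theorem exists_pow_mem (I : Ideal (O ℂ 3)) [Module.Finite ℂ (O ℂ 3 ⧸ I)] (j : Fin 3) :
    ∃ s : ℕ, (MvPowerSeries.X j : O ℂ 3) ^ s ∈ I := by
  obtain ⟨p, hp, hp0⟩ := IsIntegral.of_finite ℂ (Ideal.Quotient.mkₐ ℂ I (MvPowerSeries.X j))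
  obtain ⟨q, hq, hq0⟩ := p.exists_eq_pow_rootMultiplicity_mul_and_not_dvd hp.ne_zero 0
  refine ⟨p.rootMultiplicity 0, ?_⟩
  have h1 : Polynomial.aeval (MvPowerSeries.X j : O ℂ 3) p ∈ I := by
    have h2 : Ideal.Quotient.mkₐ ℂ I (Polynomial.aeval (MvPowerSeries.X j : O ℂ 3) p) = 0 := by
      rw [← Polynomial.aeval_algHom_apply]
      exact hp0
    exact Ideal.Quotient.eq_zero_iff_mem.1 h2
  have h3 : Polynomial.aeval (MvPowerSeries.X j : O ℂ 3) p =
      (MvPowerSeries.X j : O ℂ 3) ^ (p.rootMultiplicity 0) *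
        Polynomial.aeval (MvPowerSeries.X j : O ℂ 3) q := by
    conv_lhs => rw [hq]
    rw [map_mul, map_pow, map_sub, Polynomial.aeval_X, Polynomial.aeval_C, map_zero, sub_zero]
  have h4 : IsUnit (Polynomial.aeval (MvPowerSeries.X j : O ℂ 3) q) := by
    rw [MvPowerSeries.isUnit_iff_constantCoeff]
    have h5 : MvPowerSeries.constantCoeff (Polynomial.aeval (MvPowerSeries.X j : O ℂ 3) q) =
        q.eval 0 := by
      rw [Polynomial.aeval_def, Polynomial.hom_eval₂]
      have e1 : (MvPowerSeries.constantCoeff (σ := Fin 3) (R := ℂ)).comp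
          (algebraMap ℂ (O ℂ 3)) = RingHom.id ℂ := by
        refine RingHom.ext fun c => ?_
        rw [RingHom.comp_apply, MvPowerSeries.algebraMap_apply, MvPowerSeries.constantCoeff_C]
        rfl
      rw [e1, MvPowerSeries.constantCoeff_X, Polynomial.eval₂_id]
    rw [h5, isUnit_iff_ne_zero]
    intro h6
    exact hq0 (Polynomial.dvd_iff_isRoot.2 h6)
  rw [h3] at h1
  exact (Ideal.mul_unit_mem_iff_mem I h4).1 h1

/-- The cross product identity. -/
theorem cross {R : Type} [CommRing R] (F a b : Fin 3 → R)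
    (ha : F 0 * a 0 + F 1 * a 1 + F 2 * a 2 = 0) (hb : F 0 * b 0 + F 1 * b 1 + F 2 * b 2 = 0)
    (i j : Fin 3) :
    F i * (a (j + 1) * b (j + 2) - a (j + 2) * b (j + 1)) =
      F j * (a (i + 1) * b (i + 2) - a (i + 2) * b (i + 1)) := by
  have h01 : F 0 * (a 2 * b 0 - a 0 * b 2) = F 1 * (a 1 * b 2 - a 2 * b 1) := by
    linear_combination a 2 * hb - b 2 * ha
  have h02 : F 0 * (a 0 * b 1 - a 1 * b 0) = F 2 * (a 1 * b 2 - a 2 * b 1) := by
    linear_combination b 1 * ha - a 1 * hb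
  have h12 : F 1 * (a 0 * b 1 - a 1 * b 0) = F 2 * (a 2 * b 0 - a 0 * b 2) := by
    linear_combination a 0 * hb - b 0 * ha
  have e11 : (1 : Fin 3) + 1 = 2 := rfl
  have e12 : (1 : Fin 3) + 2 = 0 := rfl
  have e21 : (2 : Fin 3) + 1 = 0 := rfl
  have e22 : (2 : Fin 3) + 2 = 1 := rfl
  fin_cases i <;> fin_cases j <;>
    simp only [Fin.mk_zero, Fin.mk_one, Fin.reduceFinMk, zero_add, e11, e12, e21, e22] <;>
    first
      | rfl
      | exact h01
      | exact h02
      | exact h12
      | exact h01.symm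
      | exact h02.symm
      | exact h12.symm

theorem pole (hchn : ChnStatement) : PoleStatement := by
  intro f m t T hlen h hh
  have h0 : ¬ ∀ (K : Type) [Field K] [Algebra ℂ K] (D : Derivation ℂ K K)
    (x : Fin 3 → PowerSeries K), (∀ i, PowerSeries.constantCoeff (x i) = 0) → ev x f = 0 →
    OrdGe 0 f h D x := hh
  push Not at h0
  obtain ⟨K, iF, iA, D, x, hx, hf, hO⟩ := h0
  -- some partial derivative does not vanish at the point
  obtain ⟨i, hi⟩ : ∃ i, ev x (pderiv ℂ i f) ≠ 0 := by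
    by_contra hcon
    push Not at hcon
    have hfin : Module.Finite ℂ (O ℂ 3 ⧸ gi T f) := by
      have h1 : Module.length ℂ (O ℂ 3 ⧸ gi T f) ≠ ⊤ := by
        intro h2
        have h3 : len ℂ (gi T f) = ⊤ := h2
        rw [h3] at hlen
        exact (ENat.natCast_ne_top m) (top_le_iff.1 hlen)
      have h4 := (isFiniteLength_iff_isNoetherian_isArtinian.1 (Module.length_ne_top_iff.1 h1)).1
      exact Module.IsNoetherian.finite ℂ _
    have hx0 : ∀ j, x j = 0 := by
      intro j
      obtain ⟨s, hs1⟩ := exists_pow_mem (gi T f) j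
      have h5 : gi T f ≤ RingHom.ker (MvPowerSeries.substAlgHom (hs hx) : O ℂ 3 →ₐ[ℂ] _) := by
        unfold gi
        rw [Ideal.span_le]
        rintro _ ⟨a, rfl⟩
        rw [SetLike.mem_coe, RingHom.mem_ker, coe_substAlgHom]
        change ev x (gen f (T a)) = 0
        cases T a with
        | none => exact hf
        | some l => exact hcon l
      have h6 := h5 hs1
      rw [RingHom.mem_ker, map_pow, coe_substAlgHom, MvPowerSeries.subst_X (hs hx)] at h6
      exact pow_eq_zero_iff (by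
        rintro rfl
        rw [pow_zero] at h6
        exact one_ne_zero h6) |>.1 h6
    apply hO
    refine ⟨0, fun l => ?_⟩
    have h7 : jm D x l = 0 := by
      unfold jm
      rw [hx0 (l + 1), hx0 (l + 2)]
      simp
    rw [h7]; ring
  -- order and unit part
  obtain ⟨c, hc⟩ : ∃ c : ℕ, c = (ev x (pderiv ℂ i f)).order.toNat := ⟨_, rfl⟩
  obtain ⟨w, hw⟩ : ∃ w, w = PowerSeries.divXPowOrder (ev x (pderiv ℂ i f)) := ⟨_, rfl⟩
  have hcw : ev x (pderiv ℂ i f) = PowerSeries.X ^ c * w := by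
    rw [hc, hw, PowerSeries.X_pow_order_mul_divXPowOrder]
  have hwu : IsUnit w := by
    rw [PowerSeries.isUnit_iff_constantCoeff, isUnit_iff_ne_zero, hw]
    intro h1
    exact hi (PowerSeries.constantCoeff_divXPowOrder_eq_zero_iff.1 h1)
  obtain ⟨v, hv⟩ : ∃ v, w * v = 1 := by
    obtain ⟨u, hu⟩ := hwu
    exact ⟨(↑(u⁻¹) : PowerSeries K), by rw [← hu, Units.mul_inv]⟩
  refine ⟨K, iF, iA, D, x, i, c, v, ⟨hx, hf, w, hcw, hv⟩, ?_⟩
  by_contra hcon
  push Not at hcon
  apply hO
  -- all polar coefficients vanish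
  have hdiv : (PowerSeries.X : PowerSeries K) ^ c ∣ v * ev x h * jm D x i := by
    rw [PowerSeries.X_pow_dvd_iff]
    intro r hr
    exact hcon r hr
  obtain ⟨g, hg⟩ := hdiv
  obtain ⟨hA, hB⟩ := hchn 3 ℂ K D x f hx
  rw [hf, Fin.sum_univ_three] at hA hB
  have hA0 : PowerSeries.derivative K (0 : PowerSeries K) = 0 := map_zero _
  have hB0 : dl D (0 : PowerSeries K) = 0 := by
    ext r
    simp [dl]
  rw [hA0] at hA
  rw [hB0] at hB
  have hgi : g * ev x (pderiv ℂ i f) = ev x h * jm D x i := by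
    calc g * ev x (pderiv ℂ i f) = w * (PowerSeries.X ^ c * g) := by rw [hcw]; ring
      _ = w * (v * ev x h * jm D x i) := by rw [hg]
      _ = (w * v) * (ev x h * jm D x i) := by ring
      _ = ev x h * jm D x i := by rw [hv, one_mul]
  refine ⟨g, fun j => ?_⟩
  have hcr := cross (fun l => ev x (pderiv ℂ l f)) (fun l => PowerSeries.derivative K (x l))
    (fun l => dl D (x l)) hA.symm hB.symm i j
  have hcr2 : ev x (pderiv ℂ i f) * jm D x j = ev x (pderiv ℂ j f) * jm D x i := hcr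
  have h8 : ev x (pderiv ℂ i f) * (g * ev x (pderiv ℂ j f) - ev x h * jm D x j) = 0 := by
    calc ev x (pderiv ℂ i f) * (g * ev x (pderiv ℂ j f) - ev x h * jm D x j)
        = ev x (pderiv ℂ j f) * (g * ev x (pderiv ℂ i f)) -
          ev x h * (ev x (pderiv ℂ i f) * jm D x j) := by ring
      _ = 0 := by rw [hgi, hcr2]; ring
  have h9 := (mul_eq_zero.1 h8).resolve_left hi
  rw [pow_zero, one_mul]
  exact sub_eq_zero.1 h9

end Pool.Agent.DU5.TR.H84
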